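import Mathlib

namespace Pool.Agent.Results.MP_e3e9ef_lc.Linear

open Finset Sum

variable {n : ℕ}

/-- `c` is the vector of Möbius coefficients of `f` -/
def Rep (f : (Fin n → Bool) → Bool) (c : Finset (Fin n) → ℝ) : Prop :=
  ∀ x, (if f x = true then 1 else 0 : ℝ) = ∑ S, c S * ∏ i ∈ S, if x i = true then 1 else 0

open Classical in
/-- Möbius support -/
noncomputable def supp (c : Finset (Fin n) → ℝ) : Finset (Finset (Fin n)) := univ.filter fun S => c S ≠ 0

/-- number of Möbius patterns, a pattern being recorded as the set of support monomials equal to 1 -/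
noncomputable def pat (c : Finset (Fin n) → ℝ) : ℕ :=
  #(univ.image fun x : Fin n → Bool => (supp c).filter fun S => ∀ i ∈ S, x i = true)

lemma fam (m : ℕ) : ∃ (f : (Fin (m + m) → Bool) → Bool) (c : Finset (Fin (m + m)) → ℝ),
    Rep f c ∧ #(supp c) ≤ 2 * m ∧ 2 ^ m ≤ pat c := by
  obtain ⟨e⟩ : Nonempty (Fin m ⊕ Fin m ≃ Fin (m + m)) := ⟨finSumFinEquiv⟩
  obtain ⟨A, hA⟩ : ∃ A : Fin m → Finset (Fin (m + m)), A = fun i => insert (e (inr i)) ((Iio i).image (e ∘ inl)) :=
    ⟨_, rfl⟩
  obtain ⟨B, hB⟩ : ∃ B : Fin m → Finset (Fin (m + m)), B = fun i => insert (e (inr i)) ((Iic i).image (e ∘ inl)) :=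
    ⟨_, rfl⟩
  obtain ⟨c, hc⟩ : ∃ c : Finset (Fin (m + m)) → ℝ, c = fun S =>
    ∑ i, ((if S = A i then 1 else 0) - if S = B i then 1 else 0) := ⟨_, rfl⟩
  refine ⟨fun x => decide (∃ i, x (e (inr i)) = true ∧ (∀ j < i, x (e (inl j)) = true) ∧ x (e (inl i)) = false), c,
    fun x => ?_, ?_, ?_⟩
  · have : ∀ i, (∏ j ∈ A i, if x j = true then 1 else 0 : ℝ) - (∏ j ∈ B i, if x j = true then 1 else 0) =
        if x (e (inr i)) = true ∧ (∀ j < i, x (e (inl j)) = true) ∧ x (e (inl i)) = false then 1 else 0 := fun i => by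
      simp only [prod_boole, hA, hB, forall_mem_insert, forall_mem_image, mem_Iio, mem_Iic, le_iff_lt_or_eq, or_imp,
        forall_and, forall_eq, Function.comp]
      cases x (e (inl i)) <;> simp
    simp only [hc, sum_mul, sub_mul, ite_mul, one_mul, zero_mul]
    rw [sum_comm]
    simp only [sum_sub_distrib, sum_ite_eq', mem_univ, if_true]
    rw [← sum_sub_distrib]
    simp only [this, decide_eq_true_eq]
    split_ifs with h
    · obtain ⟨i, h⟩ := h
      rw [sum_eq_single i (fun j _ q => if_neg fun z => ?_) (by simp), if_pos h]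
      rcases lt_or_gt_of_ne q with q | q
      · simpa [z.2.2] using h.2.1 j q
      · simpa [h.2.2] using z.2.1 i q
    · exact (sum_eq_zero fun i _ => if_neg fun z => h ⟨i, z⟩).symm
  · refine (card_le_card (t := univ.image A ∪ univ.image B) fun S h => by_contra fun z => ?_).trans
      ((card_union_le _ _).trans (by have := card_image_le (s := univ) (f := A); have := card_image_le (s := univ) (f := B)
                                     simp at *; omega))
    simp only [mem_union, mem_image, mem_univ, true_and, not_or, not_exists] at z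
    simp [supp, hc, Ne.symm (z.1 _), Ne.symm (z.2 _)] at h
  · have a : ∀ i, A i ∈ supp c := fun i => by
      have p : ∀ j, A i ≠ B j := fun j q => by
        obtain rfl : i = j := by simpa [hA, hB] using Finset.ext_iff.1 q (e (inr i))
        simpa [hA, hB] using Finset.ext_iff.1 q (e (inl i))
      have q : ∀ j, A i = A j ↔ i = j := fun j => ⟨fun q => by simpa [hA] using Finset.ext_iff.1 q (e (inr i)), congrArg _⟩
      simp [supp, hc, p, q]
    refine le_trans (by simp) (card_le_card_of_injOn (s := (univ : Finset (Fin m → Bool))) (fun y => (supp c).filter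
      fun S => ∀ i ∈ S, Sum.elim (fun _ => true) y (e.symm i) = true)
      (fun y _ => mem_coe.2 (mem_image_of_mem _ (mem_univ fun i => Sum.elim (fun _ => true) y (e.symm i))))
      fun y _ y' _ q => funext fun i => ?_)
    have := Finset.ext_iff.1 q (A i)
    simp only [mem_filter, a, true_and] at this
    simpa [hA] using this

theorem result (δ C : ℝ) (hδ : 0 < δ) : ∃ (n : ℕ) (f : (Fin n → Bool) → Bool) (c : Finset (Fin n) → ℝ),
    Rep f c ∧ (#(supp c) : ℝ) ≤ 2 * Real.logb 2 (pat c) ∧ C * (#(supp c) : ℝ) ^ (1 - δ) < Real.logb 2 (pat c) := by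
  obtain ⟨m, a, b⟩ := ((tendsto_natCast_atTop_atTop.eventually ((tendsto_rpow_atTop (lt_min hδ one_pos)).eventually_gt_atTop
    (2 * |C|))).and (Filter.eventually_ge_atTop 1)).exists
  obtain ⟨f, c, r, s, p⟩ := fam m
  have m1 : (1 : ℝ) ≤ m := by exact_mod_cast b
  have l : (m : ℝ) ≤ Real.logb 2 (pat c) := by
    rw [Real.le_logb_iff_rpow_le (by norm_num) (by exact_mod_cast (by positivity : 0 < 2 ^ m).trans_le p)]
    exact_mod_cast p
  have s' : (#(supp c) : ℝ) ≤ 2 * m := by exact_mod_cast s
  refine ⟨_, f, c, r, by linarith, lt_of_lt_of_le ?_ l⟩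
  have d1 := min_le_right δ 1
  have d0 := lt_min hδ one_pos
  have u : (#(supp c) : ℝ) ^ (1 - δ) ≤ (2 * m) ^ (1 - min δ 1) := by
    rcases Nat.eq_zero_or_pos #(supp c) with z | z
    · rw [z, Nat.cast_zero]
      exact (Real.zero_rpow_le_one _).trans (Real.one_le_rpow (by linarith) (by linarith))
    · exact (Real.rpow_le_rpow_of_exponent_le (by exact_mod_cast z) (by linarith [min_le_left δ 1])).trans
        (Real.rpow_le_rpow (by positivity) s' (by linarith))
  have v : (2 * m : ℝ) ^ (1 - min δ 1) * m ^ min δ 1 ≤ 2 * m :=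
    calc _ ≤ (2 * m : ℝ) ^ (1 - min δ 1) * (2 * m) ^ min δ 1 := by gcongr; linarith
      _ = _ := by rw [← Real.rpow_add (by linarith)]; simp
  have w : 0 < (2 * m : ℝ) ^ (1 - min δ 1) := by positivity
  have : C * (#(supp c) : ℝ) ^ (1 - δ) ≤ |C| * (2 * m) ^ (1 - min δ 1) :=
    (mul_le_mul_of_nonneg_right (le_abs_self C) (by positivity)).trans (by gcongr)
  nlinarith [abs_nonneg C]

end Pool.Agent.Results.MP_e3e9ef_lc.Linear
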